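import Pool.Agent.Helper57_K9.Stmts
import Pool.Agent.Helper32_KF.Cdz
import Pool.Agent.Helper50_PP.Blk3
import Pool.Agent.Helper50_PP.Bid
import Pool.Agent.Helper50_PP.Ffa

/-!
# Squad K9, module DZO: blocks of defect zero
-/

open scoped BigOperators

noncomputable section

namespace Pool.Agent.PP.K9.H1

open Pool.Agent.Helper51_AWC Pool.Agent.Helper79_WRA Pool.Agent.PP Pool.Agent.PP.KF

attribute [local instance] Ideal.Quotient.field

/-- If every good subgroup of `e` is trivial then `e` vanishes at the elements whose centraliser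
has order divisible by `ℓ`. -/
theorem prc {F G : Type} [Field F] [Group G] [Finite G] {ℓ : ℕ} [Fact ℓ.Prime] {e : G → F}
    (he : IsCl e) (h : ∀ Q : Subgroup G, IsPGroup ℓ Q → Gd e Q → Q = ⊥) : PrC ℓ e := by
  refine ⟨he, ?_⟩
  intro x hx
  by_contra hne
  obtain ⟨y, hy⟩ := exists_prime_orderOf_dvd_card' ℓ hx
  have hy' : orderOf (y : G) = ℓ := by rw [Subgroup.orderOf_coe, hy]
  have hyx : (y : G) * x = x * (y : G) := Subgroup.mem_centralizer_singleton_iff.1 y.2
  have hpg : IsPGroup ℓ (Subgroup.zpowers (y : G)) := by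
    apply IsPGroup.of_card (n := 1)
    rw [Nat.card_zpowers, hy', pow_one]
  have hgd : Gd e (Subgroup.zpowers (y : G)) := by
    refine ⟨x, ?_, hne⟩
    rw [Subgroup.mem_centralizer_iff]
    intro g hg
    obtain ⟨k, rfl⟩ := Subgroup.mem_zpowers_iff.1 hg
    exact ((show Commute (y : G) x from hyx).zpow_left k).eq
  have h1 := h _ hpg hgd
  rw [Subgroup.zpowers_eq_bot] at h1
  rw [h1, orderOf_one] at hy'
  exact (Fact.out : ℓ.Prime).one_lt.ne hy'

theorem dzo (wbo : WboStmt) : DzoStmt := by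
  intro ℓ hℓ M hM hlM G _ _ e he h
  have hF : GoodF ℓ (FF M) := H50.fld ℓ hℓ.out M hlM
  have hrk : rk e (cfs (FF M) G) ≤ 1 :=
    H32.rk_le_one (H20.matS ℓ (FF M) hF G e ⟨he, prc he.1.1 h⟩).2.2.2
  have hnc : rk e (cfs (FF M) G) = (IrrE M e).ncard := H50.chp ℓ hℓ.out M hlM G e he.1
  obtain ⟨κ, hκ, hκ1⟩ := H50.exists_irr_res he.1 he.2.1
  have hmem : κ ∈ IrrE M e := ⟨hκ, hκ1⟩
  have := Fintype.ofFinite G
  have hfin : (IrrE M e).Finite := irr_finite'.subset fun χ hχ => hχ.1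
  have heq : IrrE M e = {κ} := by
    have h1 : (IrrE M e).ncard ≤ 1 := by rw [← hnc]; exact hrk
    have h2 := (Set.ncard_le_one hfin).1 h1
    ext θ
    exact ⟨fun hθ => h2 θ hθ κ hmem, fun hθ => by rw [Set.mem_singleton_iff.1 hθ]; exact hmem⟩
  refine ⟨κ, heq, ⟨fun x y => irr_conj hκ _ _, ?_⟩⟩
  intro x hx
  have h1 := wbo ℓ M hlM G e he.1 1 x (by
    unfold Reg
    rw [orderOf_one]
    exact Nat.coprime_one_left ℓ) hx
  rw [heq, finsum_mem_singleton, inv_one] at h1
  exact (mul_eq_zero.1 h1).resolve_left (irr_one_ne hκ)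

end Pool.Agent.PP.K9.H1
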